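import Mathlib

set_option autoImplicit false
set_option linter.unusedSectionVars false

namespace Pool.Agent.H.MP_f3c9f4_co

open Classical

theorem dih {H : Type} [Group H] (a b : H) (ha : a * a = 1) (hb : b * b = 1) (n : ℤ) :
    a * (a * b) ^ n = (a * b) ^ (-n) * a := by
  have ha' : a⁻¹ = a := inv_eq_of_mul_eq_one_right ha
  have hb' : b⁻¹ = b := inv_eq_of_mul_eq_one_right hb
  have h1 : a * (a * b) * a⁻¹ = (a * b)⁻¹ := by
    rw [mul_inv_rev, ha', hb', ← mul_assoc, ha, one_mul]
  have h2 : a * (a * b) ^ n * a⁻¹ = (a * b) ^ (-n) := by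
    rw [← conj_zpow, h1, inv_zpow']
  rw [← h2, inv_mul_cancel_right]

variable {V : Type} [Fintype V]

structure Valid (G : SimpleGraph V) (s : Fin 3 → V → V) : Prop where
  inv : ∀ i v, s i (s i v) = v
  adj : ∀ i v, s i v ≠ v → G.Adj v (s i v)
  dis : ∀ i j v, s i v = s j v → s i v ≠ v → i = j

noncomputable def wt (s : Fin 3 → V → V) : ℕ :=
  (Finset.univ.filter (fun p : Fin 3 × V => s p.1 p.2 ≠ p.2)).card

structure Opt (G : SimpleGraph V) (s : Fin 3 → V → V) : Prop extends Valid G s where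
  mx : ∀ t, Valid G t → wt t ≤ wt s

theorem exists_opt (G : SimpleGraph V) : ∃ s, Opt G s := by
  obtain ⟨s, hs, hm⟩ := Set.exists_max_image {s : Fin 3 → V → V | Valid G s} wt (Set.toFinite _)
    ⟨fun _ v => v, ⟨fun _ _ => rfl, fun _ _ h => absurd rfl h, fun _ _ _ _ h => absurd rfl h⟩⟩
  exact ⟨s, hs, hm⟩

variable {G : SimpleGraph V} {s : Fin 3 → V → V}

theorem Valid.flip (h : Valid G s) {i : Fin 3} {u v : V} (e : s i u = v) : s i v = u := by
  rw [← e, h.inv]

theorem Valid.unc (h : Valid G s) {u v : V} (hu : ∀ i, s i u ≠ v) : ∀ i, s i v ≠ u :=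
  fun i e => hu i (h.flip e)

theorem Opt.ext (h : Opt G s) {u v : V} (huv : G.Adj u v) (hu : ∀ i, s i u ≠ v) {k : Fin 3}
    (h1 : s k u = u) (h2 : s k v = v) : False := by
  have hne : u ≠ v := huv.ne
  have hv := h.toValid.unc hu
  let t : Fin 3 → V → V := fun i w =>
    if i = k then (if w = u then v else if w = v then u else s k w) else s i w
  have hk : ∀ w, w ≠ u → w ≠ v → s k w ≠ u ∧ s k w ≠ v := fun w a b =>
    ⟨fun e => a (by rw [← h.toValid.flip e, h1]), fun e => b (by rw [← h.toValid.flip e, h2])⟩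
  have tu : t k u = v := by simp [t]
  have tv : t k v = u := by simp [t, hne.symm]
  have tw : ∀ w, w ≠ u → w ≠ v → t k w = s k w := fun w a b => by simp [t, a, b]
  have ti : ∀ i, i ≠ k → ∀ w, t i w = s i w := fun i a w => by simp [t, a]
  have aux : ∀ j w, j ≠ k → t k w = s j w → t k w ≠ w → False := by
    intro j w hj e ne
    by_cases a : w = u
    · subst a; rw [tu] at e; exact hu j e.symm
    by_cases b : w = v
    · subst b; rw [tv] at e; exact hv j e.symm
    rw [tw w a b] at e ne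
    exact hj (h.dis k j w e ne).symm
  have hval : Valid G t := by
    refine ⟨fun i w => ?_, fun i w ne => ?_, fun i j w e ne => ?_⟩
    · by_cases hi : i = k
      · subst hi
        by_cases a : w = u
        · subst a; rw [tu, tv]
        by_cases b : w = v
        · subst b; rw [tv, tu]
        rw [tw w a b, tw _ (hk w a b).1 (hk w a b).2, h.inv]
      · rw [ti i hi, ti i hi, h.inv]
    · by_cases hi : i = k
      · subst hi
        by_cases a : w = u
        · subst a; rw [tu]; exact huv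
        by_cases b : w = v
        · subst b; rw [tv]; exact huv.symm
        rw [tw w a b] at ne ⊢
        exact h.adj _ _ ne
      · rw [ti i hi] at ne ⊢
        exact h.adj _ _ ne
    · by_cases hi : i = k
      · by_cases hj : j = k
        · rw [hi, hj]
        · subst hi
          rw [ti j hj] at e
          exact (aux j w hj e ne).elim
      · by_cases hj : j = k
        · subst hj
          rw [ti i hi] at e ne
          exact (aux i w hi e.symm (by rw [← e]; exact ne)).elim
        · rw [ti i hi, ti j hj] at e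
          rw [ti i hi] at ne
          exact h.dis i j w e ne
  have hlt : wt s < wt t := by
    apply Finset.card_lt_card
    rw [Finset.ssubset_iff_of_subset]
    · refine ⟨(k, u), ?_, ?_⟩
      · simp [tu, hne.symm]
      · simp [h1]
    · rintro ⟨i, w⟩ hp
      simp only [Finset.mem_filter, Finset.mem_univ, true_and] at hp ⊢
      by_cases hi : i = k
      · subst hi
        have a : w ≠ u := fun e => hp (by rw [e, h1])
        have b : w ≠ v := fun e => hp (by rw [e, h2])
        rw [tw w a b]; exact hp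
      · rw [ti i hi]; exact hp
  exact absurd (h.mx t hval) (not_le.2 hlt)

theorem Opt.swap (h : Opt G s) (x y : Fin 3) (K : V → Prop)
    (hK : ∀ i w, (i = x ∨ i = y) → K w → K (s i w)) :
    Opt G (fun i w => if K w then s (Equiv.swap x y i) w else s i w) := by
  have hK' : ∀ i w, (i = x ∨ i = y) → ¬ K w → ¬ K (s i w) := fun i w hi a b =>
    a (by have := hK i _ hi b; rwa [h.inv] at this)
  have hsw : ∀ i, (i = x ∨ i = y) → (Equiv.swap x y i = x ∨ Equiv.swap x y i = y) := by
    rintro i (rfl | rfl) <;> simp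
  refine ⟨⟨fun i w => ?_, fun i w ne => ?_, fun i j w e ne => ?_⟩, fun t ht => ?_⟩
  · by_cases hi : i = x ∨ i = y
    · by_cases a : K w
      · simp only [a, if_true, hK _ w (hsw i hi) a, h.inv]
      · simp only [a, if_false, hK' i w hi a, h.inv]
    · have : Equiv.swap x y i = i :=
        Equiv.swap_apply_of_ne_of_ne (fun e => hi (Or.inl e)) (fun e => hi (Or.inr e))
      simp only [this, ite_self, h.inv]
  · by_cases a : K w
    · simp only [a, if_true] at ne ⊢
      exact h.adj _ _ ne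
    · simp only [a, if_false] at ne ⊢
      exact h.adj _ _ ne
  · by_cases a : K w
    · simp only [a, if_true] at e ne
      exact (Equiv.swap x y).injective (h.dis _ _ w e ne)
    · simp only [a, if_false] at e ne
      exact h.dis _ _ w e ne
  · refine (h.mx t ht).trans ?_
    apply Finset.card_le_card_of_injOn
      (fun p : Fin 3 × V => (if K p.2 then Equiv.swap x y p.1 else p.1, p.2))
    · rintro ⟨i, w⟩ hp
      simp only [Finset.coe_filter, Finset.mem_univ, true_and, Set.mem_ofPred_eq] at hp ⊢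
      by_cases a : K w
      · simpa [a] using hp
      · simpa [a] using hp
    · rintro ⟨i, w⟩ _ ⟨j, w'⟩ _ e
      simp only [Prod.mk.injEq] at e
      obtain ⟨e1, rfl⟩ := e
      by_cases a : K w
      · simp only [a, if_true] at e1
        rw [(Equiv.swap x y).injective e1]
      · simp only [a, if_false] at e1
        rw [e1]

def O (s : Fin 3 → V → V) (z : Fin 3) : V → V → Prop :=
  Relation.ReflTransGen (fun p q => ∃ i, i ≠ z ∧ q = s i p)

theorem Valid.osymm (h : Valid G s) {z : Fin 3} {u v : V} (e : O s z u v) : O s z v u := by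
  induction e with
  | refl => exact Relation.ReflTransGen.refl
  | tail _ hq ih =>
    obtain ⟨i, hi, rfl⟩ := hq
    exact Relation.ReflTransGen.head ⟨i, hi, (h.inv i _).symm⟩ ih

theorem third : ∀ x y z i : Fin 3, x ≠ y → x ≠ z → y ≠ z → i ≠ z → i = x ∨ i = y := by decide

theorem third' : ∀ x y : Fin 3, x ≠ y → ∃ z, x ≠ z ∧ y ≠ z := by decide

theorem Opt.lemA (h : Opt G s) {u v : V} (huv : G.Adj u v) (hu : ∀ i, s i u ≠ v)
    {x y z : Fin 3} (xz : x ≠ z) (yz : y ≠ z) (h1 : s x u = u) (h2 : s y v = v) : O s z u v := by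
  by_contra hn
  have h' := h.swap x y (O s z u) (fun i w hi a =>
    Relation.ReflTransGen.tail a ⟨i, by rcases hi with rfl | rfl <;> assumption, rfl⟩)
  have r : O s z u u := Relation.ReflTransGen.refl
  refine h'.ext huv (k := y) (fun i => ?_) ?_ ?_
  · simp only [r, if_true]; exact hu _
  · simp only [r, if_true, Equiv.swap_apply_right, h1]
  · simp only [hn, if_false, h2]

theorem Valid.lemB (h : Valid G s) {x y z : Fin 3} (xy : x ≠ y) (xz : x ≠ z) (yz : y ≠ z)
    {u v w : V} (h1 : s x u = u) (h2 : s y v = v) (h3 : s y w = w)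
    (ov : O s z u v) (ow : O s z u w) : v = w := by
  let a : Equiv.Perm V := Function.Involutive.toPerm (s x) (h.inv x)
  let b : Equiv.Perm V := Function.Involutive.toPerm (s y) (h.inv y)
  have ha : a * a = 1 := Equiv.ext fun p => h.inv x p
  have hb : b * b = 1 := Equiv.ext fun p => h.inv y p
  have au : a u = u := h1
  have sx : ∀ n : ℤ, s x (((a * b) ^ n) u) = ((a * b) ^ (-n)) u := fun n => by
    have := congrArg (fun g : Equiv.Perm V => g u) (dih a b ha hb n)
    simp only [Equiv.Perm.mul_apply, au] at this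
    exact this
  have sy : ∀ n : ℤ, s y (((a * b) ^ n) u) = ((a * b) ^ (-(1 + n))) u := fun n => by
    rw [← sx, zpow_one_add]
    simp only [Equiv.Perm.mul_apply]
    exact (h.inv x _).symm
  have key : ∀ p, O s z u p → ∃ n : ℤ, p = ((a * b) ^ n) u := by
    intro p hp
    induction hp with
    | refl => exact ⟨0, by simp⟩
    | tail _ hq ih =>
      obtain ⟨n, rfl⟩ := ih
      obtain ⟨i, hi, rfl⟩ := hq
      rcases third x y z i xy xz yz hi with rfl | rfl
      · exact ⟨_, sx n⟩
      · exact ⟨_, sy n⟩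
  obtain ⟨n, rfl⟩ := key v ov
  obtain ⟨k, rfl⟩ := key w ow
  have st : ∀ m : ℤ, s y (((a * b) ^ m) u) = ((a * b) ^ m) u →
      (a * b) ^ (2 * m + 1) ∈ MulAction.stabilizer (Equiv.Perm V) u := fun m e => by
    rw [sy] at e
    have : ((a * b) ^ (1 + m)) (((a * b) ^ (-(1 + m))) u) = ((a * b) ^ (1 + m)) (((a * b) ^ m) u) := by
      rw [e]
    rw [← Equiv.Perm.mul_apply, ← Equiv.Perm.mul_apply, ← zpow_add, ← zpow_add] at this
    have e1 : 1 + m + -(1 + m) = 0 := by ring
    have e2 : 1 + m + m = 2 * m + 1 := by ring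
    rw [e1, e2] at this
    exact this.symm
  have m1 := Subgroup.mul_mem _ (Subgroup.zpow_mem _ (st n h2) (-k)) (Subgroup.zpow_mem _ (st k h3) n)
  rw [← zpow_mul, ← zpow_mul, ← zpow_add] at m1
  have e3 : (2 * n + 1) * -k + (2 * k + 1) * n = -k + n := by ring
  rw [e3] at m1
  have m2 : ((a * b) ^ (-k + n)) u = u := m1
  have : ((a * b) ^ k) (((a * b) ^ (-k + n)) u) = ((a * b) ^ k) u := by rw [m2]
  rw [← Equiv.Perm.mul_apply, ← zpow_add] at this
  have e4 : k + (-k + n) = n := by ring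
  rwa [e4] at this

theorem cover (hc : ∀ v, (G.neighborSet v).ncard = 3) {u : V} (g : Fin 3 → V)
    (hg : Function.Injective g) (ha : ∀ i, G.Adj u (g i)) {w : V} (hw : G.Adj u w) :
    ∃ i, g i = w := by
  have h1 : Set.range g ⊆ G.neighborSet u := by rintro _ ⟨i, rfl⟩; exact ha i
  have h2 : (Set.range g).ncard = 3 := by
    rw [Set.ncard_range_of_injective hg]; simp
  have := Set.eq_of_subset_of_ncard_le h1 (by rw [hc, h2])
  have h3 : w ∈ Set.range g := by rw [this]; exact hw
  exact h3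

theorem Valid.c0 (h : Valid G s) (hc : ∀ v, (G.neighborSet v).ncard = 3) {u v : V}
    (huv : G.Adj u v) (hu : ∀ i, s i u ≠ v) : ∃ x, s x u = u := by
  by_contra hn
  push Not at hn
  obtain ⟨i, hi⟩ := cover hc (fun i => s i u) (fun i j e => h.dis i j u e (hn i))
    (fun i => h.adj i u (hn i)) huv
  exact hu i hi

theorem Opt.c1 (h : Opt G s) (hc : ∀ v, (G.neighborSet v).ncard = 3) {u : V} {x x' : Fin 3}
    (h1 : s x u = u) (h2 : s x' u = u) : x = x' := by
  by_contra hn
  obtain ⟨y, xy, xy'⟩ := third' x x' hn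
  have hcard : 1 < (G.neighborSet u \ {s y u}).ncard := by
    have := Set.le_ncard_sdiff {s y u} (G.neighborSet u)
    rw [hc, Set.ncard_singleton] at this
    omega
  obtain ⟨v, hv, w, hw, vw⟩ := (Set.one_lt_ncard (Set.toFinite _)).1 hcard
  have aux : ∀ v ∈ G.neighborSet u \ {s y u}, s y v = v ∧ O s x' u v := by
    rintro v ⟨hv, hv'⟩
    have hv : G.Adj u v := hv
    have hu : ∀ i, s i u ≠ v := fun i e => by
      by_cases hi : i = y
      · exact hv' (by rw [← e, hi]; rfl)
      · rcases third x x' y i hn xy xy' hi with rfl | rfl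
        · exact hv.ne (h1.symm.trans e)
        · exact hv.ne (h2.symm.trans e)
    obtain ⟨k, hk⟩ := h.toValid.c0 hc hv.symm (h.toValid.unc hu)
    have ky : k = y := by
      by_contra hi
      rcases third x x' y k hn xy xy' hi with rfl | rfl
      · exact h.ext hv hu h1 hk
      · exact h.ext hv hu h2 hk
    rw [ky] at hk
    exact ⟨hk, h.lemA hv hu hn xy'.symm h1 hk⟩
  exact vw (h.toValid.lemB xy hn xy'.symm h1 (aux v hv).1 (aux w hw).1 (aux v hv).2 (aux w hw).2)

theorem Opt.c2 (h : Opt G s) (hc : ∀ v, (G.neighborSet v).ncard = 3) {u v w : V}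
    (huv : G.Adj u v) (hu : ∀ i, s i u ≠ v) (huw : G.Adj u w) (hw : ∀ i, s i u ≠ w) : v = w := by
  obtain ⟨x, hx⟩ := h.toValid.c0 hc huv hu
  have ne : ∀ i, i ≠ x → s i u ≠ u := fun i hi e => hi (h.c1 hc e hx)
  obtain ⟨i, hi⟩ := cover hc (fun i => if i = x then v else s i u) (fun i j e => by
      by_cases a : i = x <;> by_cases b : j = x
      · rw [a, b]
      · simp only [a, b, if_true, if_false] at e; exact (hu j e.symm).elim
      · simp only [a, b, if_true, if_false] at e; exact (hu i e).elim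
      · simp only [a, b, if_false] at e; exact h.dis i j u e (ne i a))
    (fun i => by
      by_cases a : i = x
      · simp only [a, if_true]; exact huv
      · simp only [a, if_false]; exact h.adj i u (ne i a)) huw
  by_cases a : i = x
  · simpa only [a, if_true] using hi
  · simp only [a, if_false] at hi; exact (hw i hi).elim

theorem two : ∀ x : Fin 3, ∃ y z, ∀ i, i ≠ x → i = y ∨ i = z := by decide

theorem c3 (hc : ∀ v, (G.neighborSet v).ncard = 3) {u : V} {x : Fin 3} (hx : s x u = u) :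
    ∃ v, G.Adj u v ∧ ∀ i, s i u ≠ v := by
  by_contra hn
  push Not at hn
  obtain ⟨y, z, hyz⟩ := two x
  have h1 : G.neighborSet u ⊆ {s y u, s z u} := by
    intro v hv
    obtain ⟨i, hi⟩ := hn v hv
    have : i ≠ x := fun e => (show G.Adj u v from hv).ne (by rw [← hi, e, hx])
    rcases hyz i this with rfl | rfl
    · exact Or.inl hi.symm
    · exact Or.inr hi.symm
  have h2 := Set.ncard_le_ncard h1
  have h3 := Set.ncard_insert_le (s y u) {s z u}
  rw [hc] at h2
  rw [Set.ncard_singleton] at h3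
  omega

def Fl (G : SimpleGraph V) (s : Fin 3 → V → V) (z : Fin 3) (w : V) : Prop :=
  ∃ u v x y, G.Adj u v ∧ (∀ i, s i u ≠ v) ∧ x ≠ y ∧ x ≠ z ∧ y ≠ z ∧ s x u = u ∧ s y v = v ∧
    O s z u w

theorem Valid.fl (h : Valid G s) {z i : Fin 3} (hi : i ≠ z) (w : V) :
    Fl G s z (s i w) ↔ Fl G s z w := by
  constructor
  · rintro ⟨u, v, x, y, a, b, c, d, e, f, g, o⟩
    exact ⟨u, v, x, y, a, b, c, d, e, f, g, o.tail ⟨i, hi, (h.inv i w).symm⟩⟩
  · rintro ⟨u, v, x, y, a, b, c, d, e, f, g, o⟩
    exact ⟨u, v, x, y, a, b, c, d, e, f, g, o.tail ⟨i, hi, rfl⟩⟩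

theorem Opt.nfl (h : Opt G s) (hc : ∀ v, (G.neighborSet v).ncard = 3) {u v : V}
    (huv : G.Adj u v) (hu : ∀ i, s i u ≠ v) {x y : Fin 3} (xy : x ≠ y)
    (h1 : s x u = u) (h2 : s y v = v) : ¬ Fl G s y u := by
  rintro ⟨p, q, a, b, hpq, hp, ab, ay, by', pa, qb, o⟩
  have opq := h.lemA hpq hp ay by' pa qb
  rcases third a b y x ab ay by' xy with rfl | rfl
  · have oqp := h.toValid.osymm opq
    have e : p = u := h.toValid.lemB ab.symm by' ay qb pa h1 oqp (oqp.trans o)
    subst e
    have e2 := h.c2 hc huv hu hpq hp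
    subst e2
    exact by' (h.c1 hc qb h2)
  · have e : q = u := h.toValid.lemB ab ay by' pa qb h1 opq o
    subst e
    have e2 := h.c2 hc huv hu hpq.symm (h.toValid.unc hp)
    subst e2
    exact ay (h.c1 hc pa h2)

def labL : List (List ℕ) := [[0, 4, 8], [1, 6, 8], [2, 4, 9], [3, 6, 9], [0, 5, 10], [1, 7, 10],
  [2, 5, 11], [3, 7, 11], [13, 4, 9], [13, 5, 11], [14, 6, 8], [14, 7, 10], [0, 12, 10],
  [2, 12, 11], [1, 14, 8], [3, 14, 9], [0, 5, 12], [1, 7, 12], [2, 4, 13], [3, 6, 13]]

def lab (t : Fin 20) (p : Fin 3) : ℕ := (labL.getD t []).getD p 0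

def cl (i : Fin 3) (f : Fin 3 → Bool) : ℕ := 4 * i + 2 * (f (i + 1)).toNat + (f (i + 2)).toNat

theorem T1 : ∀ f : Fin 3 → Bool, ∃ t : Fin 20, ∀ p, lab t p = cl p f := by decide +kernel

theorem T2 : ∀ (f : Fin 3 → Bool) (x y z : Fin 3), x ≠ y → x ≠ z → y ≠ z → f z = true →
    f y = false → ∃ t : Fin 20, ∀ p, lab t p = if p = x then 12 + z.val else cl p f := by
  decide +kernel

theorem ne12 : ∀ i : Fin 3, i ≠ i + 1 ∧ i ≠ i + 2 := by decide

theorem structure_thm (G : SimpleGraph V) (hc : ∀ v, (G.neighborSet v).ncard = 3) :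
    ∃ (ty : V → Fin 20) (l : V → V → ℕ) (sl : V → V → Fin 3),
      (∀ u v, G.Adj u v → l u v = l v u) ∧ (∀ u v, G.Adj u v → l u v = lab (ty u) (sl u v)) ∧
      (∀ u v w, G.Adj u v → G.Adj u w → sl u v = sl u w → v = w) := by
  obtain ⟨s, h⟩ := exists_opt G
  let f : V → Fin 3 → Bool := fun u z => decide (Fl G s z u)
  have un : ∀ u v, G.Adj u v → (∀ i, s i u ≠ v) → ∃ x y z, x ≠ y ∧ x ≠ z ∧ y ≠ z ∧ s x u = u ∧
      s y v = v ∧ s z u ≠ u ∧ s z v ≠ v := by
    intro u v huv hu
    obtain ⟨x, hx⟩ := h.toValid.c0 hc huv hu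
    obtain ⟨y, hy⟩ := h.toValid.c0 hc huv.symm (h.toValid.unc hu)
    have xy : x ≠ y := fun e => h.ext huv hu hx (by rw [e]; exact hy)
    obtain ⟨z, xz, yz⟩ := third' x y xy
    exact ⟨x, y, z, xy, xz, yz, hx, hy, fun e => xz (h.c1 hc hx e), fun e => yz (h.c1 hc hy e)⟩
  have hl : ∀ u v, ∃ l : ℕ, G.Adj u v → (∀ i, s i u = v → l = cl i (f u)) ∧
      (∀ z : Fin 3, (∀ i, s i u ≠ v) → s z u ≠ u → s z v ≠ v → l = 12 + z.val) := by
    intro u v
    by_cases huv : G.Adj u v
    swap
    · exact ⟨0, fun a => absurd a huv⟩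
    by_cases hu : ∀ i, s i u ≠ v
    · obtain ⟨x, y, z, xy, xz, yz, hx, hy, _, _⟩ := un u v huv hu
      refine ⟨12 + z.val, fun _ => ⟨fun i e => absurd e (hu i), fun z' _ a b => ?_⟩⟩
      by_cases e : z' = z
      · rw [e]
      · rcases third x y z z' xy xz yz e with rfl | rfl
        · exact absurd hx a
        · exact absurd hy b
    · push Not at hu
      obtain ⟨i, hi⟩ := hu
      refine ⟨cl i (f u), fun _ => ⟨fun j e => ?_, fun z a => absurd hi (a i)⟩⟩
      rw [h.dis i j u (hi.trans e.symm) (by rw [hi]; exact huv.ne.symm)]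
  choose l hl using hl
  have ht : ∀ u, ∃ (t : Fin 20) (sl : V → Fin 3), (∀ v, G.Adj u v → l u v = lab t (sl v)) ∧
      (∀ v w, G.Adj u v → G.Adj u w → sl v = sl w → v = w) := by
    intro u
    by_cases hm : ∃ x, s x u = u
    · obtain ⟨x, hx⟩ := hm
      obtain ⟨v0, hv0, hu0⟩ := c3 hc hx
      obtain ⟨x', y, z, xy, xz, yz, hx', hy, zu, zv⟩ := un u v0 hv0 hu0
      have := h.c1 hc hx' hx
      subst this
      obtain ⟨t, ht⟩ := T2 (f u) x' y z xy xz yz
        (decide_eq_true ⟨u, v0, x', y, hv0, hu0, xy, xz, yz, hx, hy, Relation.ReflTransGen.refl⟩)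
        (decide_eq_false (h.nfl hc hv0 hu0 xy hx hy))
      have : ∀ v, ∃ p : Fin 3, G.Adj u v → (p ≠ x' ∧ s p u = v) ∨ (p = x' ∧ v = v0) := by
        intro v
        by_cases hu : ∀ i, s i u ≠ v
        · exact ⟨x', fun a => Or.inr ⟨rfl, h.c2 hc a hu hv0 hu0⟩⟩
        · push Not at hu
          obtain ⟨i, hi⟩ := hu
          exact ⟨i, fun a => Or.inl ⟨fun e => a.ne (by rw [← hi, e, hx]), hi⟩⟩
      choose sl hsl using this
      refine ⟨t, sl, fun v a => ?_, fun v w a b e => ?_⟩
      · rcases hsl v a with ⟨c, d⟩ | ⟨c, d⟩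
        · rw [ht, if_neg c]; exact (hl u v a).1 _ d
        · rw [ht, if_pos c, d]; exact (hl u v0 hv0).2 z hu0 zu zv
      · rcases hsl v a with ⟨c, d⟩ | ⟨c, d⟩ <;> rcases hsl w b with ⟨c', d'⟩ | ⟨c', d'⟩
        · rw [← d, ← d', e]
        · exact absurd (e.trans c') c
        · exact absurd (e.symm.trans c) c'
        · rw [d, d']
    · obtain ⟨t, ht⟩ := T1 (f u)
      have : ∀ v, ∃ p : Fin 3, G.Adj u v → s p u = v := by
        intro v
        by_cases hu : ∀ i, s i u ≠ v
        · exact ⟨0, fun a => absurd (h.toValid.c0 hc a hu) hm⟩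
        · push Not at hu
          obtain ⟨i, hi⟩ := hu
          exact ⟨i, fun _ => hi⟩
      choose sl hsl using this
      refine ⟨t, sl, fun v a => ?_, fun v w a b e => ?_⟩
      · rw [ht]; exact (hl u v a).1 _ (hsl v a)
      · rw [← hsl v a, ← hsl w b, e]
  choose ty sl h1 h2 using ht
  refine ⟨ty, l, sl, fun u v huv => ?_, h1, h2⟩
  by_cases hu : ∀ i, s i u ≠ v
  · obtain ⟨x, y, z, -, -, -, -, -, zu, zv⟩ := un u v huv hu
    rw [(hl u v huv).2 z hu zu zv, (hl v u huv.symm).2 z (h.toValid.unc hu) zv zu]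
  · push Not at hu
    obtain ⟨i, hi⟩ := hu
    rw [(hl u v huv).1 i hi, (hl v u huv.symm).1 i (h.toValid.flip hi), ← hi]
    simp only [cl, f, h.toValid.fl (ne12 i).1, h.toValid.fl (ne12 i).2]

def colL : List ℕ := [11338720850505, 10038420058977, 20066094396009, 25082616230497,
  25082884862729, 20071732032329, 10033051054889, 11338720850505, 20109727727725, 10076684386605,
  10041695803237, 20075007776589, 25121583613512, 10071749805672, 10064202451299, 25108398622819,
  25108686110987, 20097533280587, 20076859069608, 25093380904096]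

def rowL : List ℕ := [1737625848685, 19638110813, 15067056753485, 5034013215581, 5037234211653,
  15069203548741, 20712311629, 1737625848685, 15058385118537, 12040676681, 45435181145,
  15095000619073, 5045853501762, 29331601738, 36870403676, 5051245508444, 5054103561580,
  15086072898668, 15092788809738, 5059745271834]

def col (t : Fin 20) (l : ℕ) : Fin 6 := Fin.ofNat 6 (colL.getD t 0 / 8 ^ l % 8)

def row (t : Fin 20) (l : ℕ) : Fin 6 := Fin.ofNat 6 (rowL.getD t 0 / 8 ^ l % 8)

theorem T3 : ∀ (i j : Fin 20) (p q : Fin 3), (col j (lab i p) = col j (lab i q) → p = q) ∧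
    (row j (lab i p) = row j (lab i q) → p = q) ∧ col j (lab i p) ≠ row i (lab j q) := by
  decide +kernel

theorem main {W : Type} [Fintype W] (F : SimpleGraph V) (G : SimpleGraph W)
    (hF : ∀ v, (F.neighborSet v).ncard = 3) (hG : ∀ v, (G.neighborSet v).ncard = 3) :
    (SimpleGraph.boxProd F G).lineGraph.Colorable 6 := by
  obtain ⟨ty, l, sl, a1, a2, a3⟩ := structure_thm F hF
  obtain ⟨ty', l', sl', b1, b2, b3⟩ := structure_thm G hG
  let c : V × W → V × W → Fin 6 := fun p q =>
    if p.2 = q.2 then col (ty' p.2) (l p.1 q.1) else row (ty p.1) (l' p.2 q.2)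
  have cL : ∀ a b x, c (a, x) (b, x) = col (ty' x) (l a b) := fun a b x => by simp [c]
  have cR : ∀ a x y, G.Adj x y → c (a, x) (a, y) = row (ty a) (l' x y) := fun a x y h => by
    simp [c, h.ne]
  have sym : ∀ p q, (SimpleGraph.boxProd F G).Adj p q → c p q = c q p := by
    rintro ⟨a, x⟩ ⟨b, y⟩ (⟨h, e⟩ | ⟨h, e⟩)
    · obtain rfl : x = y := e
      rw [cL, cL, a1 a b h]
    · obtain rfl : a = b := e
      rw [cR a x y h, cR a y x h.symm, b1 x y h]
  have inj : ∀ p q r, (SimpleGraph.boxProd F G).Adj p q → (SimpleGraph.boxProd F G).Adj p r →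
      c p q = c p r → q = r := by
    rintro ⟨a, x⟩ ⟨b, y⟩ ⟨d, z⟩ (⟨h, e⟩ | ⟨h, e⟩) (⟨h', e'⟩ | ⟨h', e'⟩) hc
    · obtain rfl : x = y := e
      obtain rfl : x = z := e'
      rw [cL, cL, a2 a b h, a2 a d h'] at hc
      rw [a3 a b d h h' ((T3 _ _ _ _).1 hc)]
    · obtain rfl : x = y := e
      obtain rfl : a = d := e'
      rw [cL, cR a x z h', a2 a b h, b2 x z h'] at hc
      exact absurd hc (T3 _ _ _ _).2.2
    · obtain rfl : a = b := e
      obtain rfl : x = z := e'
      rw [cL, cR a x y h, a2 a d h', b2 x y h] at hc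
      exact absurd hc.symm (T3 _ _ _ _).2.2
    · obtain rfl : a = b := e
      obtain rfl : a = d := e'
      rw [cR a x y h, cR a x z h', b2 x y h, b2 x z h'] at hc
      rw [b3 x y z h h' ((T3 _ _ _ _).2.1 hc)]
  have ex : ∀ e : (SimpleGraph.boxProd F G).edgeSet, ∃ k : Fin 6,
      ∀ p q, (e : Sym2 (V × W)) = s(p, q) → k = c p q := by
    rintro ⟨e, he⟩
    induction e using Sym2.ind with
    | h p q =>
      refine ⟨c p q, fun p' q' h => ?_⟩
      rcases Sym2.eq_iff.1 h with ⟨rfl, rfl⟩ | ⟨rfl, rfl⟩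
      · rfl
      · exact sym _ _ he
  choose k hk using ex
  refine ⟨SimpleGraph.Coloring.mk k ?_⟩
  intro e1 e2 h hc
  obtain ⟨ne, p, h1, h2⟩ := SimpleGraph.lineGraph_adj_iff_exists.1 h
  obtain ⟨q, hq⟩ := Sym2.mem_iff_exists.1 h1
  obtain ⟨r, hr⟩ := Sym2.mem_iff_exists.1 h2
  rw [hk e1 p q hq, hk e2 p r hr] at hc
  have aq : (SimpleGraph.boxProd F G).Adj p q := by
    have := e1.2; rwa [hq] at this
  have ar : (SimpleGraph.boxProd F G).Adj p r := by
    have := e2.2; rwa [hr] at this
  exact ne (Subtype.ext (by rw [hq, hr, inj p q r aq ar hc]))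

end Pool.Agent.H.MP_f3c9f4_co
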